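import Mathlib
import Pool.Agent.Helper5.NE.Stmts

/-! P6, P7: the form attached to an embedding. -/

namespace Pool.Agent.Helper64.NE

open Pool.Agent.Helper5.NE
open scoped InnerProductSpace ComplexConjugate ENNReal Topology
open Filter

noncomputable section

/-- the sesquilinear form `⟨η, c ξ⟩ := ω(r(η)* c r(ξ))` -/
def formMap {C : Type} [NonUnitalCStarAlgebra C] (ω : C →ₗ[ℂ] ℂ) (r : L2 X →ₗ[ℂ] C) :
    C →ₗ[ℂ] L2 X →ₗ⋆[ℂ] L2 X →ₗ[ℂ] ℂ where
  toFun c :=
    { toFun := fun η =>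
        { toFun := fun ξ => ω (star (r η) * c * r ξ)
          map_add' := fun ξ ξ' => by rw [map_add, mul_add, map_add]
          map_smul' := fun a ξ => by rw [map_smul, mul_smul_comm, map_smul, RingHom.id_apply] }
      map_add' := fun η η' => by
        ext ξ
        simp only [LinearMap.coe_mk, AddHom.coe_mk, LinearMap.add_apply]
        rw [map_add, star_add, add_mul, add_mul, map_add]
      map_smul' := fun a η => by
        ext ξ
        simp only [LinearMap.coe_mk, AddHom.coe_mk, LinearMap.smul_apply]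
        rw [map_smul, star_smul, smul_mul_assoc, smul_mul_assoc, map_smul]
        rfl }
  map_add' c c' := by
    ext η ξ
    simp only [LinearMap.coe_mk, AddHom.coe_mk, LinearMap.add_apply]
    rw [mul_add, add_mul, map_add]
  map_smul' a c := by
    ext η ξ
    simp only [LinearMap.coe_mk, AddHom.coe_mk, LinearMap.smul_apply, RingHom.id_apply]
    rw [mul_smul_comm, smul_mul_assoc, map_smul]

theorem formMap_apply {C : Type} [NonUnitalCStarAlgebra C] (ω : C →ₗ[ℂ] ℂ) (r : L2 X →ₗ[ℂ] C)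
    (c : C) (η ξ : L2 X) : formMap ω r c η ξ = ω (star (r η) * c * r ξ) := rfl

theorem form (hS : StateStmt) : FormStmt := by
  intro Al hcl hrk C _ ι hι
  let d : L2 X := del (RW.nil, 0)
  have hd : ‖d‖ = 1 := norm_del _
  let R : L2 X →ₗ[ℂ] Al :=
    { toFun := fun ξ => ⟨rk ξ d, hrk ξ d⟩
      map_add' := fun ξ ξ' => Subtype.ext (by
        show rk (ξ + ξ') d = rk ξ d + rk ξ' d
        simp [rk])
      map_smul' := fun a ξ => Subtype.ext (by
        show rk (a • ξ) d = a • rk ξ d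
        simp [rk]) }
  have hR : ∀ ξ, ((R ξ : Al) : L2 X →L[ℂ] L2 X) = rk ξ d := fun ξ => rfl
  let r : L2 X →ₗ[ℂ] C :=
    { toFun := fun ξ => ι (R ξ)
      map_add' := fun ξ ξ' => by rw [map_add, map_add]
      map_smul' := fun a ξ => by rw [map_smul, map_smul, RingHom.id_apply] }
  have hr : ∀ ξ, r ξ = ι (R ξ) := fun ξ => rfl
  have hcs : IsClosed (Al : Set (L2 X →L[ℂ] L2 X)) := hcl
  have hnle : ∀ a : Al, ‖ι a‖ ≤ ‖(a : L2 X →L[ℂ] L2 X)‖ := by
    intro a
    exact NonUnitalStarAlgHom.norm_apply_le ι a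
  -- products of rank one operators in the algebra
  have hp1 : ∀ (η ξ : L2 X) (a : Al), star (R η) * a * R ξ = ⟪η, (a : L2 X →L[ℂ] L2 X) ξ⟫_ℂ • R d := by
    intro η ξ a
    refine Subtype.ext ?_
    show star (rk η d) * (a : L2 X →L[ℂ] L2 X) * rk ξ d = ⟪η, (a : L2 X →L[ℂ] L2 X) ξ⟫_ℂ • rk d d
    rw [ContinuousLinearMap.star_eq_adjoint, InnerProductSpace.adjoint_rankOne]
    refine ContinuousLinearMap.ext (fun ζ => ?_)
    show rk d η ((a : L2 X →L[ℂ] L2 X) (rk ξ d ζ)) = _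
    simp [rk, smul_smul, mul_comm]
  have hp0 : ι (R d) ≠ 0 := by
    intro h0
    have h1 : R d = 0 := hι (by rw [h0, map_zero])
    have h2 : rk d d = 0 := by
      rw [← hR, h1]; rfl
    have h3 : ‖rk d d‖ = 0 := by rw [h2, norm_zero]
    rw [InnerProductSpace.norm_rankOne, hd] at h3
    norm_num at h3
  have hps : star (R d) = R d := by
    refine Subtype.ext ?_
    show star (rk d d) = rk d d
    rw [ContinuousLinearMap.star_eq_adjoint, InnerProductSpace.adjoint_rankOne]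
  have hpp : R d * R d = R d := by
    refine Subtype.ext ?_
    show rk d d * rk d d = rk d d
    refine ContinuousLinearMap.ext (fun ζ => ?_)
    show rk d d (rk d d ζ) = _
    simp [rk, hd]
  obtain ⟨ω, hω1, hω2, hω3⟩ := hS C (ι (R d)) hp0 (by rw [← map_star, hps]) (by rw [← map_mul, hpp])
  have hstar : ∀ (a : Al) (η : L2 X), star a * R η = R (star (a : L2 X →L[ℂ] L2 X) η) := by
    intro a η
    refine Subtype.ext ?_
    show star (a : L2 X →L[ℂ] L2 X) * rk η d = rk (star (a : L2 X →L[ℂ] L2 X) η) d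
    refine ContinuousLinearMap.ext (fun ζ => ?_)
    show (star (a : L2 X →L[ℂ] L2 X)) (rk η d ζ) = _
    simp [rk]
  have hright : ∀ (a : Al) (η : L2 X), a * R η = R ((a : L2 X →L[ℂ] L2 X) η) := by
    intro a η
    refine Subtype.ext ?_
    show (a : L2 X →L[ℂ] L2 X) * rk η d = rk ((a : L2 X →L[ℂ] L2 X) η) d
    refine ContinuousLinearMap.ext (fun ζ => ?_)
    show (a : L2 X →L[ℂ] L2 X) (rk η d ζ) = _
    simp [rk]
  have hrn : ∀ ξ, ‖r ξ‖ ≤ ‖ξ‖ := by
    intro ξ
    rw [hr]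
    refine (hnle _).trans ?_
    rw [hR, InnerProductSpace.norm_rankOne, hd, mul_one]
  refine ⟨formMap ω r, ?_⟩
  refine ⟨hnle, ?_, ?_, ?_, ?_⟩
  · intro c η ξ
    rw [formMap_apply]
    refine (hω1 _).trans ?_
    calc ‖star (r η) * c * r ξ‖ ≤ ‖star (r η) * c‖ * ‖r ξ‖ := norm_mul_le _ _
      _ ≤ ‖star (r η)‖ * ‖c‖ * ‖r ξ‖ := by gcongr; exact norm_mul_le _ _
      _ ≤ ‖η‖ * ‖c‖ * ‖ξ‖ := by
        rw [norm_star]
        gcongr
        · exact hrn η
        · exact hrn ξ
      _ = ‖c‖ * ‖η‖ * ‖ξ‖ := by ring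
  · intro a η ξ
    rw [formMap_apply, hr, hr, ← map_star, ← map_mul, ← map_mul, hp1, map_smul, map_smul, hω2,
      smul_eq_mul, mul_one]
  · intro a b c η ξ
    rw [formMap_apply, formMap_apply]
    congr 1
    have e1 : star (ι (R η)) * ι a = star (r (star (a : L2 X →L[ℂ] L2 X) η)) := by
      rw [hr, ← hstar, map_mul, star_mul, ← map_star, ← map_star ι (star a), star_star]
    have e2 : ι b * ι (R ξ) = r ((b : L2 X →L[ℂ] L2 X) ξ) := by
      rw [hr, ← hright, map_mul]
    rw [← e1, ← e2, hr, hr]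
    simp only [mul_assoc]
  · intro I _ z ξ
    have e : ∑ i, ∑ j, formMap ω r ((star z * z) i j) (ξ i) (ξ j) =
        ∑ k, ω (star (∑ j, z k j * r (ξ j)) * (∑ j, z k j * r (ξ j))) := by
      have h1 : ∀ i j, formMap ω r ((star z * z) i j) (ξ i) (ξ j) =
          ∑ k, ω (star (z k i * r (ξ i)) * (z k j * r (ξ j))) := by
        intro i j
        rw [formMap_apply, Matrix.mul_apply, Finset.mul_sum, Finset.sum_mul, map_sum]
        refine Finset.sum_congr rfl (fun k _ => ?_)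
        congr 1
        rw [star_mul, Matrix.star_apply]
        simp only [mul_assoc]
      simp_rw [h1]
      rw [Finset.sum_congr rfl (fun i _ => Finset.sum_comm), Finset.sum_comm]
      refine Finset.sum_congr rfl (fun k _ => ?_)
      rw [star_sum, Finset.sum_mul, map_sum]
      refine Finset.sum_congr rfl (fun i _ => ?_)
      rw [Finset.mul_sum, map_sum]
    rw [e, Complex.re_sum, Complex.im_sum]
    exact ⟨Finset.sum_nonneg (fun k _ => (hω3 _).1), Finset.sum_eq_zero (fun k _ => (hω3 _).2)⟩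

/-- a bounded linear functional on `ℓ²` has square summable coefficients -/
theorem bessel {f : X → ℂ} {s : Finset X} {B : ℝ}
    (h : ∀ a : X → ℂ, ‖∑ v ∈ s, a v * f v‖ ^ 2 ≤ B ^ 2 * ∑ v ∈ s, ‖a v‖ ^ 2) :
    ∑ v ∈ s, ‖f v‖ ^ 2 ≤ B ^ 2 := by
  have h1 := h (fun v => conj (f v))
  have h2 : ∑ v ∈ s, conj (f v) * f v = ((∑ v ∈ s, ‖f v‖ ^ 2 : ℝ) : ℂ) := by
    push_cast
    refine Finset.sum_congr rfl (fun v _ => ?_)
    exact Complex.conj_mul' (f v)
  rw [h2, Complex.norm_real, Real.norm_of_nonneg (Finset.sum_nonneg (fun _ _ => by positivity))] at h1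
  have h3 : ∑ v ∈ s, ‖conj (f v)‖ ^ 2 = ∑ v ∈ s, ‖f v‖ ^ 2 :=
    Finset.sum_congr rfl (fun v _ => by rw [Complex.norm_conj])
  rw [h3] at h1
  set S := ∑ v ∈ s, ‖f v‖ ^ 2 with hS
  have hS0 : 0 ≤ S := Finset.sum_nonneg (fun _ _ => by positivity)
  by_contra hcon
  push Not at hcon
  have : 0 < S := lt_of_le_of_lt (sq_nonneg B) hcon
  nlinarith

theorem norm_sum_del (s : Finset X) (a : X → ℂ) :
    ‖∑ v ∈ s, a v • (del v : L2 X)‖ ^ 2 = ∑ v ∈ s, ‖a v‖ ^ 2 := by
  have h1 : ((‖∑ v ∈ s, a v • (del v : L2 X)‖ ^ 2 : ℝ) : ℂ) = ((∑ v ∈ s, ‖a v‖ ^ 2 : ℝ) : ℂ) := by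
    have h2 := inner_self_eq_norm_sq_to_K (𝕜 := ℂ) (∑ v ∈ s, a v • (del v : L2 X))
    push_cast
    refine h2.symm.trans ?_
    rw [sum_inner]
    refine Finset.sum_congr rfl (fun v hv => ?_)
    rw [inner_smul_left, inner_del_left]
    have h3 : (∑ v ∈ s, a v • (del v : L2 X)) v = a v := by
      rw [lp.coeFn_sum, Finset.sum_apply, Finset.sum_eq_single v]
      · rw [lp.coeFn_smul, Pi.smul_apply, del_self, smul_eq_mul, mul_one]
      · intro u _ hu
        rw [lp.coeFn_smul, Pi.smul_apply, del_ne (Ne.symm hu), smul_zero]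
      · exact fun h => absurd hv h
    rw [h3]
    exact Complex.conj_mul' (a v)
  exact_mod_cast h1

theorem formGood : FormGoodStmt := by
  intro Al C _ ι Φ hΦ c hc
  have hrow : ∀ u, ∀ s : Finset X, ∑ v ∈ s, ‖Φ c (del u) (del v)‖ ^ 2 ≤ 1 := by
    intro u s
    have := bessel (f := fun v => Φ c (del u) (del v)) (s := s) (B := 1) (fun a => by
      have e1 : ∑ v ∈ s, a v * Φ c (del u) (del v) = Φ c (del u) (∑ v ∈ s, a v • del v) := by
        rw [map_sum]
        exact Finset.sum_congr rfl (fun v _ => by rw [map_smul, smul_eq_mul])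
      rw [e1, ← norm_sum_del]
      have h1 := hΦ.bound c (del u) (∑ v ∈ s, a v • del v)
      rw [norm_del, mul_one] at h1
      have h2 : ‖Φ c (del u) (∑ v ∈ s, a v • del v)‖ ≤ 1 * ‖∑ v ∈ s, a v • (del v : L2 X)‖ :=
        h1.trans (by gcongr)
      calc _ ≤ (1 * ‖∑ v ∈ s, a v • (del v : L2 X)‖) ^ 2 := by gcongr
        _ = _ := by ring)
    simpa using this
  have hcol : ∀ v, ∀ s : Finset X, ∑ u ∈ s, ‖Φ c (del u) (del v)‖ ^ 2 ≤ 1 := by
    intro v s
    have := bessel (f := fun u => Φ c (del u) (del v)) (s := s) (B := 1) (fun a => by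
      have e1 : ∑ u ∈ s, a u * Φ c (del u) (del v) = Φ c (∑ u ∈ s, conj (a u) • del u) (del v) := by
        rw [map_sum, LinearMap.sum_apply]
        exact Finset.sum_congr rfl (fun u _ => by
          rw [LinearMap.map_smulₛₗ, LinearMap.smul_apply, smul_eq_mul, Complex.conj_conj])
      have e2 : ∑ u ∈ s, ‖a u‖ ^ 2 = ‖∑ u ∈ s, conj (a u) • (del u : L2 X)‖ ^ 2 := by
        rw [norm_sum_del]
        exact Finset.sum_congr rfl (fun u _ => by rw [Complex.norm_conj])
      rw [e1, e2]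
      have h1 := hΦ.bound c (∑ u ∈ s, conj (a u) • del u) (del v)
      rw [norm_del, mul_one] at h1
      have h2 : ‖Φ c (∑ u ∈ s, conj (a u) • del u) (del v)‖ ≤
          1 * ‖∑ u ∈ s, conj (a u) • (del u : L2 X)‖ :=
        h1.trans (by gcongr)
      calc _ ≤ (1 * ‖∑ u ∈ s, conj (a u) • (del u : L2 X)‖) ^ 2 := by gcongr
        _ = _ := by ring)
    simpa using this
  have htend : ∀ (f : X → ℂ), (∀ s : Finset X, ∑ v ∈ s, ‖f v‖ ^ 2 ≤ 1) → ∀ x,
      Tendsto (fun i : ℕ => f (x, i)) atTop (𝓝 0) := by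
    intro f hf x
    have hsum : Summable (fun v => ‖f v‖ ^ 2) :=
      summable_of_sum_le (fun v => by positivity) hf
    have h1 : Tendsto (fun i : ℕ => ‖f (x, i)‖ ^ 2) atTop (𝓝 0) := by
      have h2 := hsum.comp_injective (i := fun i : ℕ => ((x, i) : X)) (fun i j h => by simpa using h)
      exact h2.tendsto_atTop_zero
    have h3 : Tendsto (fun i : ℕ => ‖f (x, i)‖) atTop (𝓝 0) := by
      have h4 := h1.sqrt
      simpa using h4
    exact tendsto_zero_iff_norm_tendsto_zero.2 h3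
  refine ⟨⟨fun u v => ?_, fun u x => ?_, fun v y => ?_⟩, hcol⟩
  · have h1 := hΦ.bound c (del u) (del v)
    rw [norm_del, norm_del, mul_one, mul_one] at h1
    exact h1.trans hc
  · exact htend (fun v => Φ c (del u) (del v)) (hrow u) x
  · exact htend (fun u => Φ c (del u) (del v)) (hcol v) y

end

end Pool.Agent.Helper64.NE
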