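import Mathlib
import Pool.Agent.Helper5.NE.Stmts

/-! P5: a norming state supported on a projection. -/

namespace Pool.Agent.Helper64.NE

open Pool.Agent.Helper5.NE
open scoped InnerProductSpace ComplexConjugate ENNReal Topology

theorem state_real {C : Type} [NonUnitalCStarAlgebra C] {p : C} (hps : star p = p)
    (hpp : p * p = p) (hn : ‖p‖ = 1) {g : StrongDual ℂ C} (hg : ‖g‖ = 1) (hgp : g p = 1)
    {h : C} (hh : star h = h) (h1 : h * p = h) (h2 : p * h = h) : (g h).im = 0 := by
  have key : ∀ t : ℝ, ((g h).im + t) ^ 2 ≤ ‖h‖ ^ 2 + t ^ 2 := by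
    intro t
    have e1 : g (h + (t * Complex.I) • p) = g h + t * Complex.I := by
      rw [map_add, map_smul, hgp, smul_eq_mul, mul_one]
    have e2 : ‖g (h + (t * Complex.I) • p)‖ ≤ ‖h + (t * Complex.I) • p‖ := by
      have := g.le_opNorm (h + (t * Complex.I) • p)
      rwa [hg, one_mul] at this
    have e3 : ‖h + (t * Complex.I) • p‖ ^ 2 ≤ ‖h‖ ^ 2 + t ^ 2 := by
      have e4 : star (h + (t * Complex.I) • p) * (h + (t * Complex.I) • p) =
          h * h + ((t ^ 2 : ℝ) : ℂ) • p := by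
        rw [star_add, star_smul, hh, hps, add_mul, mul_add, mul_add]
        simp only [smul_mul_assoc, mul_smul_comm, h1, h2, hpp, smul_smul]
        have e5 : star ((t : ℂ) * Complex.I) = -(t * Complex.I) := by
          simp
        rw [e5, neg_smul]
        have e6 : ((t : ℂ) * Complex.I) * -(t * Complex.I) = ((t ^ 2 : ℝ) : ℂ) := by
          push_cast
          linear_combination (-(t : ℂ) ^ 2) * Complex.I_mul_I
        rw [e6]
        abel
      rw [sq, ← CStarRing.norm_star_mul_self, e4]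
      refine (norm_add_le _ _).trans ?_
      rw [norm_smul, hn, mul_one, Complex.norm_real, Real.norm_of_nonneg (sq_nonneg t)]
      gcongr
      exact (norm_mul_le _ _).trans (le_of_eq (sq _).symm)
    have e7 : ((g h).im + t) ^ 2 ≤ ‖g (h + (t * Complex.I) • p)‖ ^ 2 := by
      rw [e1, ← Complex.normSq_eq_norm_sq, Complex.normSq_apply]
      simp
      nlinarith [mul_self_nonneg (g h).re]
    refine e7.trans (le_trans ?_ e3)
    gcongr
  by_contra hne
  have h5 := key ((‖h‖ ^ 2 + 1) / (2 * (g h).im))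
  have h6 : ((g h).im + (‖h‖ ^ 2 + 1) / (2 * (g h).im)) ^ 2 =
      (g h).im ^ 2 + (‖h‖ ^ 2 + 1) + ((‖h‖ ^ 2 + 1) / (2 * (g h).im)) ^ 2 := by
    field_simp
    ring
  rw [h6] at h5
  nlinarith [sq_nonneg (g h).im]

theorem state_pos {C : Type} [NonUnitalCStarAlgebra C] {p : C} (hps : star p = p)
    (hpp : p * p = p) (hn : ‖p‖ = 1) {g : StrongDual ℂ C} (hg : ‖g‖ = 1) (hgp : g p = 1)
    {y : C} (h1 : y * p = y) (hy : ‖star y * y‖ ≤ 1) : 0 ≤ (g (star y * y)).re := by
  let _ : PartialOrder C := CStarAlgebra.spectralOrder C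
  have _ : StarOrderedRing C := CStarAlgebra.spectralOrderedRing C
  have h0 : 0 ≤ star y * y := star_mul_self_nonneg y
  have h2 : p * star y = star y := by
    have := congrArg star h1
    rwa [star_mul, hps] at this
  have hu : ((star y * y : C) : Unitization ℂ C) ≤ 1 :=
    (CStarAlgebra.inr_mem_Icc_iff_norm_le.2 ⟨h0, hy⟩).2
  have hple : ((p : C) : Unitization ℂ C) ≤ 1 :=
    (CStarAlgebra.inr_mem_Icc_iff_norm_le.2 ⟨by rw [← hpp]; nth_rewrite 1 [← hps]; exact star_mul_self_nonneg p, hn.le⟩).2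
  have h3 : ((star y * y : C) : Unitization ℂ C) ≤ (p : Unitization ℂ C) := by
    have h4 := star_left_conjugate_le_conjugate hu (p : Unitization ℂ C)
    have h5 : star (p : Unitization ℂ C) * ((star y * y : C) : Unitization ℂ C) * (p : Unitization ℂ C) =
        ((star y * y : C) : Unitization ℂ C) := by
      rw [← Unitization.inr_star, ← Unitization.inr_mul, ← Unitization.inr_mul, hps, mul_assoc, mul_assoc,
        h1, ← mul_assoc, h2]
    have h6 : star (p : Unitization ℂ C) * 1 * (p : Unitization ℂ C) = (p : Unitization ℂ C) := by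
      rw [mul_one, ← Unitization.inr_star, ← Unitization.inr_mul, hps, hpp]
    rwa [h5, h6] at h4
  have h7 : ((p - star y * y : C) : Unitization ℂ C) ∈ Set.Icc (0 : Unitization ℂ C) 1 := by
    rw [Unitization.inr_sub]
    refine ⟨sub_nonneg.2 h3, ?_⟩
    refine le_trans ?_ hple
    refine sub_le_self _ ?_
    exact (CStarAlgebra.inr_mem_Icc_iff_norm_le.2 ⟨h0, hy⟩).1
  have h8 := (CStarAlgebra.inr_mem_Icc_iff_norm_le.1 h7).2
  have h9 : ‖g (p - star y * y)‖ ≤ 1 := by
    have := g.le_opNorm (p - star y * y)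
    rw [hg, one_mul] at this
    exact this.trans h8
  rw [map_sub, hgp] at h9
  have h10 := (Complex.re_le_norm (1 - g (star y * y))).trans h9
  simp at h10
  linarith

theorem state : StateStmt := by
  intro C _ p hp0 hps hpp
  have hn : ‖p‖ = 1 := by
    have h1 : ‖p‖ * ‖p‖ = ‖p‖ := by
      rw [← CStarRing.norm_star_mul_self, hps, hpp]
    have h2 : ‖p‖ ≠ 0 := norm_ne_zero_iff.2 hp0
    exact mul_left_cancel₀ h2 (by rw [h1, mul_one])
  obtain ⟨g, hg, hgp⟩ := exists_dual_vector ℂ p (norm_ne_zero_iff.2 hp0)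
  have hgp' : g p = 1 := by rw [hgp, hn]; simp
  refine ⟨g.toLinearMap ∘ₗ ((LinearMap.mulLeft ℂ p).comp (LinearMap.mulRight ℂ p)), ?_, ?_, ?_⟩
  · intro c
    show ‖g (p * (c * p))‖ ≤ ‖c‖
    have h1 := g.le_opNorm (p * (c * p))
    rw [hg, one_mul] at h1
    refine h1.trans ((norm_mul_le _ _).trans ?_)
    rw [hn, one_mul]
    refine (norm_mul_le _ _).trans ?_
    rw [hn, mul_one]
  · show g (p * (p * p)) = 1
    rw [hpp, hpp, hgp']
  · intro c
    show 0 ≤ (g (p * (star c * c * p))).re ∧ (g (p * (star c * c * p))).im = 0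
    have e1 : p * (star c * c * p) = star (c * p) * (c * p) := by
      rw [star_mul, hps]
      simp only [mul_assoc]
    rw [e1]
    set y := c * p with hy
    have hyp : y * p = y := by rw [hy, mul_assoc, hpp]
    have hpy : p * star y = star y := by
      have := congrArg star hyp
      rwa [star_mul, hps] at this
    refine ⟨?_, state_real hps hpp hn hg hgp' (by simp) (by rw [mul_assoc, hyp])
      (by rw [← mul_assoc, hpy])⟩
    by_cases h0 : y = 0
    · simp [h0]
    have hy0 : 0 < ‖y‖ := norm_pos_iff.2 h0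
    have h2 := state_pos (y := ((‖y‖⁻¹ : ℝ) : ℂ) • y) hps hpp hn hg hgp'
      (by rw [smul_mul_assoc, hyp]) (by
        rw [CStarRing.norm_star_mul_self, norm_smul]
        have : ‖((‖y‖⁻¹ : ℝ) : ℂ)‖ = ‖y‖⁻¹ := by
          rw [Complex.norm_real, Real.norm_of_nonneg (by positivity)]
        rw [this, inv_mul_cancel₀ hy0.ne', one_mul])
    have h3 : star (((‖y‖⁻¹ : ℝ) : ℂ) • y) * (((‖y‖⁻¹ : ℝ) : ℂ) • y) =
        ((‖y‖⁻¹ * ‖y‖⁻¹ : ℝ) : ℂ) • (star y * y) := by
      rw [star_smul, smul_mul_assoc, mul_smul_comm, smul_smul]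
      congr 1
      simp
    rw [h3, map_smul, smul_eq_mul, Complex.re_ofReal_mul] at h2
    have h4 : 0 < ‖y‖⁻¹ * ‖y‖⁻¹ := by positivity
    exact (mul_nonneg_iff_of_pos_left h4).1 h2

end Pool.Agent.Helper64.NE
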